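import Mathlib
import Pool.Agent.KS6_31.HC.HC3

/-!
# Alternating Hamilton-connectedness and properly coloured Hamilton cycles
-/

set_option autoImplicit false

namespace Pool.Agent.Results.MP_c83083_co.HamiltonConnected

universe u v

/-- Number of neighbours of `v` in the graph `G` (a colour class). -/
noncomputable def deg {V : Type u} (G : SimpleGraph V) (v : V) : ℕ := (G.neighborSet v).ncard

/-- Number of neighbours of `w` in `G` other than `v`. -/
noncomputable def degWithout {V : Type u} (G : SimpleGraph V) (v w : V) : ℕ :=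
  {u : V | G.Adj w u ∧ u ≠ v}.ncard

/-- The alternating colour sequence `a, b, a, b, …`. -/
def alt {C : Type v} (a b : C) (i : ℕ) : C := if i % 2 = 0 then a else b

/-- `z 0, …, z (N-1)` are distinct vertices forming a closed walk `z 0, z 1, …, z (N-1), z 0` whose
`i`-th edge `z i, z (i+1)` has colour `col i`, cyclically consecutive edges having different
colours. `G c` is the graph formed by the edges of colour `c`. -/
def PCCycle {V : Type u} {C : Type v} (G : C → SimpleGraph V) (N : ℕ) (z : ℕ → V)
    (col : ℕ → C) : Prop :=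
  Set.InjOn z (Set.Iio N) ∧
    ∀ i < N, (G (col i)).Adj (z i) (z ((i + 1) % N)) ∧ col i ≠ col ((i + 1) % N)

/-- `z 0 = x, …, z (n-1) = y` lists `n` distinct vertices and the edge `z i, z (i+1)` has colour
`a` for even `i` and colour `b` for odd `i`. -/
def AltPath {V : Type u} {C : Type v} (G : C → SimpleGraph V) (a b : C) (n : ℕ) (x y : V)
    (z : ℕ → V) : Prop :=
  Set.InjOn z (Set.Iio n) ∧ z 0 = x ∧ z (n - 1) = y ∧
    ∀ i, i + 1 < n → (G (alt a b i)).Adj (z i) (z (i + 1))

/-- Edge-coloured multigraphs on `n` vertices, `G c` the edges of colour `c`, two colours `a ≠ b`.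
(1) `n` even, colour degrees `≥ n/2`: alternating Hamilton cycles.
(2) colour degrees `≥ (n+1)/2`: an alternating Hamilton path between any two vertices.
(3) colour degrees `≥ (n+1)/2`: every edge of a further colour `k` lies on a properly coloured
Hamilton cycle whose other edges alternate between `a` and `b` (`k = b` is allowed for even `n`).
(4) `n` odd: alternating cycles through all vertices but `v`.
(5) The bound in (2) is best possible for every `n ≥ 4`. -/
theorem result :
    (∀ (V : Type u) (C : Type v) [Fintype V] (G : C → SimpleGraph V) (a b : C) (n : ℕ),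
      a ≠ b → Fintype.card V = n → 2 ≤ n →
      (Even n → (∀ x, n ≤ 2 * deg (G a) x ∧ n ≤ 2 * deg (G b) x) →
        ∀ x, ∃ z : ℕ → V, z 0 = x ∧ PCCycle G n z (alt a b)) ∧
      ((∀ x, n + 1 ≤ 2 * deg (G a) x ∧ n + 1 ≤ 2 * deg (G b) x) →
        (∀ x y : V, x ≠ y → ∃ z : ℕ → V, AltPath G a b n x y z) ∧
        (∀ (k : C) (x y : V), (G k).Adj x y → k ≠ a → (Odd n → k ≠ b) →
          ∃ z : ℕ → V, z 0 = x ∧ z (n - 1) = y ∧
            PCCycle G n z (fun i => if i = n - 1 then k else alt a b i))) ∧
      (Odd n → ∀ v : V, (∀ w, w ≠ v →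
          n ≤ 2 * degWithout (G a) v w + 1 ∧ n ≤ 2 * degWithout (G b) v w + 1) →
        ∃ z : ℕ → V, (∀ i, i < n - 1 → z i ≠ v) ∧ PCCycle G (n - 1) z (alt a b))) ∧
    (∀ n : ℕ, 4 ≤ n → ∃ P : SimpleGraph (Fin n), (∀ x, n / 2 ≤ deg P x) ∧
      ∃ x y : Fin n, x ≠ y ∧
        ∀ z : ℕ → Fin n, ¬ AltPath (fun _ : Bool => P) true false n x y z) := by
  refine ⟨?_, ?_⟩
  · intro V C _ G a b n hab hn hn2
    refine ⟨?_, ?_, ?_⟩
    · intro he h x
      exact Pool.Agent.KS6_31.HC.even_cycle hab hn hn2 (Nat.even_iff.1 he) (fun x => (h x).1)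
        (fun x => (h x).2) x
    · intro h
      refine ⟨?_, ?_⟩
      · intro x y hxy
        obtain ⟨z, h1, h2, h3, h4⟩ := Pool.Agent.KS6_31.HC.connected hn (fun x => (h x).1)
          (fun x => (h x).2) hxy
        refine ⟨z, h1, h2, h3, fun i hi => ?_⟩
        have h5 := h4 i hi
        rw [Pool.Agent.KS6_31.HC.alt_G] at h5
        exact h5
      · intro k x y hk hka hkb
        exact Pool.Agent.KS6_31.HC.through_edge hab hn (fun x => (h x).1)
          (fun x => (h x).2) hk hka (fun ho => hkb (Nat.odd_iff.2 ho))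
    · intro ho v h
      have hn3 : 3 ≤ n := by
        have := Nat.odd_iff.1 ho
        omega
      exact Pool.Agent.KS6_31.HC.minus_vertex hab hn hn3 (Nat.odd_iff.1 ho) v
        (fun w hw => (h w hw).1) (fun w hw => (h w hw).2)
  · intro n hn
    refine ⟨Pool.Agent.KS6_31.HC.par n, Pool.Agent.KS6_31.HC.par_deg n, ⟨1, by omega⟩,
      ⟨3, by omega⟩, ?_, ?_⟩
    · intro h
      have := Fin.mk.inj h
      omega
    · rintro z ⟨h1, h2, h3, h4⟩
      exact Pool.Agent.KS6_31.HC.par_no n hn z h1 (by rw [h2]) (by rw [h3]) h4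

end Pool.Agent.Results.MP_c83083_co.HamiltonConnected
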